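import Pool.Agent.K1H34.HYC.Stm

/-! # MATCH: merging nonadjacent pairs -/

set_option autoImplicit false

open Classical Finset

namespace Pool.Agent.K1H63.HYC

open Pool.Agent.K1H34.HYC

variable {V : Type} [Fintype V] {G : SimpleGraph V} {K : Finset V} {q : V → V}

/-- a map which merges disjoint nonadjacent pairs of `K` -/
structure PQ (G : SimpleGraph V) (K : Finset V) (q : V → V) : Prop where
  out : ∀ v, v ∉ K → q v = v
  inn : ∀ v ∈ K, q v ∈ K
  idem : ∀ v, q (q v) = q v
  na : ∀ v, ¬ G.Adj v (q v)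
  inj : ∀ v w, q v ≠ v → q w ≠ w → q v = q w → v = w

/-- the moved points -/
noncomputable def mv (q : V → V) : Finset V := univ.filter (fun v => q v ≠ v)

theorem mem_mv {v : V} : v ∈ mv q ↔ q v ≠ v := by
  unfold mv
  simp

/-- unmatched points -/
def Un (q : V → V) (u : V) : Prop := q u = u ∧ ∀ v, q v = u → v = u

theorem add1 (h : PQ G K q) {u u' : V} (hu : Un q u) (hu' : Un q u') (hK : u ∈ K) (hK' : u' ∈ K)
    (hne : u ≠ u') (ha : ¬ G.Adj u' u) : ∃ q', PQ G K q' ∧ (mv q').card = (mv q).card + 1 := by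
  obtain ⟨q', hq'⟩ : ∃ q' : V → V, q' = fun v => if v = u' then u else q v := ⟨_, rfl⟩
  have e1 : q' u' = u := by rw [hq']; simp
  have e2 : ∀ v, v ≠ u' → q' v = q v := fun v hv => by rw [hq']; simp [hv]
  refine ⟨q', ⟨?_, ?_, ?_, ?_, ?_⟩, ?_⟩
  · intro v hv
    rw [e2 v fun hc => hv (hc ▸ hK')]
    exact h.out v hv
  · intro v hv
    by_cases hc : v = u'
    · rw [hc, e1]
      exact hK
    · rw [e2 v hc]
      exact h.inn v hv
  · intro v
    by_cases hc : v = u'
    · rw [hc, e1, e2 u hne, hu.1]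
    · rw [e2 v hc, e2 (q v) fun hc2 => hc (hu'.2 v hc2), h.idem]
  · intro v
    by_cases hc : v = u'
    · rw [hc, e1]
      exact ha
    · rw [e2 v hc]
      exact h.na v
  · intro v w hv hw hvw
    by_cases hc : v = u'
    · by_cases hd : w = u'
      · rw [hc, hd]
      · rw [hc, e1, e2 w hd] at hvw
        have := hu.2 w hvw.symm
        rw [this] at hw hd
        rw [e2 u hd] at hw
        exact absurd hu.1 hw
    · by_cases hd : w = u'
      · rw [hd, e1, e2 v hc] at hvw
        have := hu.2 v hvw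
        rw [this] at hv hc
        rw [e2 u hc] at hv
        exact absurd hu.1 hv
      · rw [e2 v hc] at hv hvw
        rw [e2 w hd] at hw hvw
        exact h.inj v w hv hw hvw
  · have h1 : mv q' = insert u' (mv q) := by
      ext v
      rw [mem_insert, mem_mv, mem_mv]
      by_cases hc : v = u'
      · rw [hc, e1]
        simp [hne]
      · rw [e2 v hc]
        simp [hc]
    rw [h1, card_insert_of_notMem]
    rw [mem_mv, not_not]
    exact hu'.1

theorem add2 (h : PQ G K q) {u u' b : V} (hu : Un q u) (hu' : Un q u') (hK : u ∈ K) (hK' : u' ∈ K)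
    (hne : u ≠ u') (hb : q b ≠ b) (ha : ¬ G.Adj u b) (ha' : ¬ G.Adj u' (q b)) :
    ∃ q', PQ G K q' ∧ (mv q').card = (mv q).card + 1 := by
  have hbK : b ∈ K := by
    by_contra hc
    exact hb (h.out b hc)
  have hbu : u ≠ b := by
    rintro rfl
    exact hb hu.1
  have hbu' : b ≠ u' := by
    rintro rfl
    exact hb hu'.1
  have hqu : q b ≠ u := fun hc => hbu (hu.2 b hc).symm
  have hqu' : q b ≠ u' := fun hc => hbu' (hu'.2 b hc)
  obtain ⟨q', hq'⟩ : ∃ q' : V → V, q' = fun v => if v = b then u else if v = u' then q b else q v :=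
    ⟨_, rfl⟩
  have e0 : q' b = u := by rw [hq']; simp
  have e1 : q' u' = q b := by rw [hq']; simp [hbu'.symm]
  have e2 : ∀ v, v ≠ b → v ≠ u' → q' v = q v := fun v hv hv' => by rw [hq']; simp [hv, hv']
  have key : ∀ v w, q' v ≠ v → q' w ≠ w → q' v = q' w → v = b → v = w := by
    intro v w hv hw hvw hvb
    by_contra hne'
    rw [hvb] at hvw hne'
    rw [e0] at hvw
    by_cases hd : w = u'
    · rw [hd, e1] at hvw
      exact hqu hvw.symm
    · rw [e2 w (Ne.symm hne') hd] at hvw
      have := hu.2 w hvw.symm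
      rw [this, e2 u hbu hne] at hw
      exact hw hu.1
  have key2 : ∀ v w, q' v ≠ v → q' w ≠ w → q' v = q' w → v = u' → w ≠ b → v = w := by
    intro v w hv hw hvw hvb hwb
    by_contra hne'
    rw [hvb] at hvw hne'
    rw [e1, e2 w hwb (Ne.symm hne')] at hvw
    rw [e2 w hwb (Ne.symm hne')] at hw
    exact hwb (h.inj w b hw hb hvw.symm)
  refine ⟨q', ⟨?_, ?_, ?_, ?_, ?_⟩, ?_⟩
  · intro v hv
    rw [e2 v (fun hc => hv (hc ▸ hbK)) fun hc => hv (hc ▸ hK')]
    exact h.out v hv
  · intro v hv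
    by_cases hc : v = b
    · rw [hc, e0]
      exact hK
    · by_cases hd : v = u'
      · rw [hd, e1]
        exact h.inn b hbK
      · rw [e2 v hc hd]
        exact h.inn v hv
  · intro v
    by_cases hc : v = b
    · rw [hc, e0, e2 u hbu hne, hu.1]
    · by_cases hd : v = u'
      · rw [hd, e1, e2 (q b) hb hqu', h.idem]
      · rw [e2 v hc hd, e2 (q v) _ fun hc2 => hd (hu'.2 v hc2), h.idem]
        intro hc2
        have := h.idem v
        rw [hc2] at this
        exact hb this
  · intro v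
    by_cases hc : v = b
    · rw [hc, e0]
      exact fun hadj => ha hadj.symm
    · by_cases hd : v = u'
      · rw [hd, e1]
        exact ha'
      · rw [e2 v hc hd]
        exact h.na v
  · intro v w hv hw hvw
    by_cases hc : v = b
    · exact key v w hv hw hvw hc
    · by_cases hc' : w = b
      · exact (key w v hw hv hvw.symm hc').symm
      · by_cases hd : v = u'
        · exact key2 v w hv hw hvw hd hc'
        · by_cases hd' : w = u'
          · exact (key2 w v hw hv hvw.symm hd' hc).symm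
          · rw [e2 v hc hd] at hv hvw
            rw [e2 w hc' hd'] at hw hvw
            exact h.inj v w hv hw hvw
  · have h1 : mv q' = insert u' (mv q) := by
      ext v
      rw [mem_insert, mem_mv, mem_mv]
      by_cases hc : v = b
      · rw [hc, e0]
        simp [hbu, hb]
      · by_cases hd : v = u'
        · rw [hd, e1]
          simp [hqu']
        · rw [e2 v hc hd]
          simp [hd]
    rw [h1, card_insert_of_notMem]
    rw [mem_mv, not_not]
    exact hu'.1

/-- the nonneighbours -/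
theorem nn_card {D : ℕ} (hD : ∀ v ∈ K, dg G K v ≤ D) {u : V} (hu : u ∈ K) :
    K.card - (D + 1) ≤ (K.filter (fun y => y ≠ u ∧ ¬ G.Adj u y)).card := by
  have h1 := hD u hu
  unfold dg at h1
  have h2 := card_filter_add_card_filter_not (s := K) (fun y => G.Adj u y)
  have h3 : (K.filter (fun y => ¬ G.Adj u y)) =
      insert u (K.filter (fun y => y ≠ u ∧ ¬ G.Adj u y)) := by
    ext y
    rw [mem_insert, mem_filter, mem_filter]
    by_cases hy : y = u
    · rw [hy]
      simp [hu]
    · simp [hy]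
  rw [h3, card_insert_of_notMem (by simp)] at h2
  omega

theorem ind1 (A : Prop) [Decidable A] [Decidable (¬ A)] :
    (if ¬ A then (1 : ℕ) else 0) ≤ if A then 0 else 1 := by
  by_cases a : A <;> simp [a]

theorem ind4 (A B C E : Prop) [Decidable A] [Decidable B] [Decidable C] [Decidable E]
    (h1 : ¬ (¬ A ∧ ¬ E)) (h2 : ¬ (¬ C ∧ ¬ B)) :
    ((if A then 0 else 1) + (if B then 0 else 1)) + ((if C then 0 else 1) + (if E then 0 else 1))
      ≤ (2 : ℕ) := by
  by_cases a : A <;> by_cases b : B <;> by_cases c : C <;> by_cases e : E <;> simp_all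

theorem step (h : PQ G K q) {D : ℕ} (hD : ∀ v ∈ K, dg G K v ≤ D)
    (h2 : 2 * (K.card - (D + 1)) ≤ K.card) (hs : (mv q).card < K.card - (D + 1)) :
    ∃ q', PQ G K q' ∧ (mv q').card = (mv q).card + 1 := by
  -- two unmatched points
  have hsub : ∀ v, v ∉ mv q ∪ (mv q).image q → Un q v := by
    intro v hv
    rw [mem_union, mem_image, not_or] at hv
    obtain ⟨h3, h4⟩ := hv
    rw [mem_mv, not_not] at h3
    refine ⟨h3, fun w hw => ?_⟩
    by_contra hc
    exact h4 ⟨w, mem_mv.2 (by rw [hw]; exact Ne.symm hc), hw⟩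
  have hcard : (mv q ∪ (mv q).image q).card ≤ 2 * (mv q).card := by
    have := card_union_le (mv q) ((mv q).image q)
    have := card_image_le (s := mv q) (f := q)
    omega
  have h3 : 1 < (K \ (mv q ∪ (mv q).image q)).card := by
    have := le_card_sdiff (mv q ∪ (mv q).image q) K
    omega
  obtain ⟨u, hu, u', hu', hne⟩ := one_lt_card.1 h3
  rw [mem_sdiff] at hu hu'
  have U := hsub u hu.2
  have U' := hsub u' hu'.2
  by_cases hall : ∃ x y, Un q x ∧ Un q y ∧ x ∈ K ∧ y ∈ K ∧ x ≠ y ∧ ¬ G.Adj y x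
  · obtain ⟨x, y, hx, hy, hxK, hyK, hxy, ha⟩ := hall
    exact add1 h hx hy hxK hyK hxy ha
  push Not at hall
  by_contra hno
  have hno1 : ∀ b, q b ≠ b → ¬ (¬ G.Adj u b ∧ ¬ G.Adj u' (q b)) := fun b hb hc =>
    hno (add2 h U U' hu.1 hu'.1 hne hb hc.1 hc.2)
  have hno2 : ∀ b, q b ≠ b → ¬ (¬ G.Adj u' b ∧ ¬ G.Adj u (q b)) := fun b hb hc =>
    hno (add2 h U' U hu'.1 hu.1 hne.symm hb hc.1 hc.2)
  -- nonneighbours are matched
  have hN : ∀ x, x ∈ K → Un q x → K.card - (D + 1) ≤
      ∑ b ∈ mv q, ((if G.Adj x b then 0 else 1) + (if G.Adj x (q b) then 0 else 1)) := by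
    intro x hxK hx
    refine (nn_card hD hxK).trans ?_
    have h5 : K.filter (fun y => y ≠ x ∧ ¬ G.Adj x y) ⊆
        (mv q).filter (fun b => ¬ G.Adj x b) ∪
          ((mv q).filter (fun b => ¬ G.Adj x (q b))).image q := by
      intro y hy
      rw [mem_filter] at hy
      rw [mem_union, mem_filter, mem_image]
      by_cases hy2 : y ∈ mv q ∪ (mv q).image q
      · rw [mem_union, mem_image] at hy2
        rcases hy2 with hy2 | ⟨b, hb, hby⟩
        · exact Or.inl ⟨hy2, hy.2.2⟩
        · refine Or.inr ⟨b, ?_, hby⟩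
          rw [mem_filter, hby]
          exact ⟨hb, hy.2.2⟩
      · exact absurd (hall y x (hsub y hy2) hx hy.1 hxK hy.2.1) hy.2.2
    refine (card_le_card h5).trans ((card_union_le _ _).trans ?_)
    rw [sum_add_distrib]
    refine Nat.add_le_add ?_ (card_image_le.trans ?_)
    · rw [card_filter]
      exact sum_le_sum fun b _ => ind1 _
    · rw [card_filter]
      exact sum_le_sum fun b _ => ind1 _
  have h6 := hN u hu.1 U
  have h7 := hN u' hu'.1 U'
  have h8 : ∑ b ∈ mv q, ((if G.Adj u b then 0 else 1) + (if G.Adj u (q b) then 0 else 1)) +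
      ∑ b ∈ mv q, ((if G.Adj u' b then 0 else 1) + (if G.Adj u' (q b) then 0 else 1)) ≤
      ∑ _b ∈ mv q, 2 := by
    rw [← sum_add_distrib]
    refine sum_le_sum fun b hb => ?_
    exact ind4 _ _ _ _ (hno1 b (mem_mv.1 hb)) (hno2 b (mem_mv.1 hb))
  rw [sum_const, smul_eq_mul] at h8
  omega

theorem t_MATCH : S_MATCH := by
  intro V _ G K D hD h2
  have key : ∀ s : ℕ, s ≤ K.card - (D + 1) → ∃ q : V → V, PQ G K q ∧ (mv q).card = s := by
    intro s
    induction s with
    | zero =>
      intro _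
      refine ⟨id, ⟨fun _ _ => rfl, fun _ h => h, fun _ => rfl, fun v => G.loopless.irrefl v,
        fun v w hv => absurd rfl hv⟩, ?_⟩
      unfold mv
      simp
    | succ s ih =>
      intro hs
      obtain ⟨q, hq, hqs⟩ := ih (by omega)
      obtain ⟨q', hq', hqs'⟩ := step hq hD h2 (by omega)
      exact ⟨q', hq', by omega⟩
  obtain ⟨q, hq, hqs⟩ := key _ le_rfl
  refine ⟨q, hq.out, hq.inn, hq.idem, hq.na, fun u => ?_, hqs⟩
  have h3 : univ.filter (fun v => q v = u) ⊆ {u} ∪ univ.filter (fun v => q v = u ∧ v ≠ u) := by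
    intro v hv
    rw [mem_filter] at hv
    rw [mem_union, mem_singleton, mem_filter]
    by_cases hc : v = u
    · exact Or.inl hc
    · exact Or.inr ⟨mem_univ _, hv.2, hc⟩
  have h4 : (univ.filter (fun v => q v = u ∧ v ≠ u)).card ≤ 1 := by
    rw [card_le_one]
    intro v hv w hw
    rw [mem_filter] at hv hw
    refine hq.inj v w ?_ ?_ ?_
    · rw [hv.2.1]
      exact Ne.symm hv.2.2
    · rw [hw.2.1]
      exact Ne.symm hw.2.2
    · rw [hv.2.1, hw.2.1]
  refine (card_le_card h3).trans ((card_union_le _ _).trans ?_)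
  rw [card_singleton]
  omega

end Pool.Agent.K1H63.HYC
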